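import Mathlib

set_option autoImplicit false

namespace Pool.Agent.Results.MP_3ada3c_an.NotSeparable

open Complex Set WeakDual MeasureTheory TopologicalSpace unitInterval

/-- The circle. -/
abbrev T : Type := AddCircle (1 : ℝ)

/-- Boundary values of the disc algebra. -/
noncomputable def H : Subalgebra ℂ C(T, ℂ) := (Algebra.adjoin ℂ {fourier 1}).topologicalClosure

theorem Hc : IsClosed (H : Set C(T, ℂ)) := Subalgebra.isClosed_topologicalClosure _

theorem fpow (n : ℕ) : (fourier n : C(T, ℂ)) = fourier 1 ^ n := by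
  induction n with
  | zero => ext; simp
  | succ n ih => ext x; rw [pow_succ, ← ih, Nat.cast_succ, fourier_add]; rfl

theorem zH : fourier 1 ∈ H := Subalgebra.le_topologicalClosure _ (Algebra.subset_adjoin rfl)

theorem dirichlet (h : C(T, ℂ)) : ∃ p ∈ H, ∃ r ∈ H, ‖h - (p + star r)‖ < 1 := by
  have h1 : h ∈ closure (Submodule.span ℂ (range (@fourier 1)) : Set C(T, ℂ)) := by
    rw [← Submodule.topologicalClosure_coe, span_fourier_closure_eq_top]; trivial
  obtain ⟨q, hq, h2⟩ := Metric.mem_closure_iff.1 h1 1 one_pos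
  have : ∃ p ∈ H, ∃ r ∈ H, q = p + star r := by
    clear h2
    induction hq using Submodule.span_induction with
    | mem x hx =>
      obtain ⟨n, rfl⟩ := hx
      obtain ⟨k, rfl | rfl⟩ := n.eq_nat_or_neg
      · exact ⟨_, fpow k ▸ pow_mem zH k, 0, zero_mem _, by simp⟩
      · exact ⟨0, zero_mem _, _, fpow k ▸ pow_mem zH k, by ext x; simp [fourier_neg, -fourier_apply]⟩
    | zero => exact ⟨0, zero_mem _, 0, zero_mem _, by simp⟩
    | add x y _ _ a b =>
      obtain ⟨p, hp, r, hr, rfl⟩ := a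
      obtain ⟨p', hp', r', hr', rfl⟩ := b
      exact ⟨_, add_mem hp hp', _, add_mem hr hr', by rw [star_add]; ring⟩
    | smul c x _ a =>
      obtain ⟨p, hp, r, hr, rfl⟩ := a
      exact ⟨_, H.smul_mem hp c, _, H.smul_mem hr (star c), by simp⟩
  obtain ⟨p, hp, r, hr, rfl⟩ := this
  exact ⟨p, hp, r, hr, by rwa [← dist_eq_norm]⟩

theorem inv_re {G : C(T, ℂ)} (hG : G ∈ H) (h : ∀ t, 0 < (G t).re) : ∃ g ∈ H, G * g = 1 := by
  obtain ⟨C, hC⟩ := (isCompact_range (f := fun t => normSq (G t) / (G t).re)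
    (Continuous.div (by fun_prop) (by fun_prop) fun t => (h t).ne')).bddAbove
  have h1 : ∀ t, normSq (G t) ≤ (|C| + 1) * (G t).re := fun t =>
    (div_le_iff₀ (h t)).1 ((hC ⟨t, rfl⟩).trans (by linarith [le_abs_self C]))
  set e : ℝ := (|C| + 1)⁻¹ with he
  have e0 : 0 < e := by positivity
  have h2 : ‖1 - (e : ℂ) • G‖ < 1 := by
    refine (ContinuousMap.norm_lt_iff _ one_pos).2 fun t => ?_
    have a : e * normSq (G t) ≤ (G t).re := by
      rw [he, inv_mul_le_iff₀ (by positivity)]; exact h1 t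
    refine (sq_lt_one_iff₀ (norm_nonneg _)).1 ?_
    rw [← normSq_eq_norm_sq]
    have b := mul_pos e0 (h t)
    have c := mul_le_mul_of_nonneg_left a e0.le
    simp only [normSq_apply] at c
    simp [normSq_apply]
    nlinarith
  have h3 := mul_neg_geom_series _ h2
  refine ⟨(e : ℂ) • ∑' i : ℕ, (1 - (e : ℂ) • G) ^ i, H.smul_mem (tsum_mem Hc fun i =>
    pow_mem (sub_mem (one_mem _) (H.smul_mem hG _)) _) _, ?_⟩
  rwa [sub_sub_cancel, smul_mul_assoc, ← mul_smul_comm] at h3

theorem inv_exp {g : C(T, ℂ)} (hg : g ∈ H) (h : C(T, ℂ)) (e : ∀ t, exp (h t) = g t) :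
    ∃ k ∈ H, g * k = 1 := by
  obtain ⟨p, hp, r, hr, h1⟩ := dirichlet h
  have h2 := NormedSpace.exp_mem (R := ℂ) Hc (sub_mem hr hp)
  obtain ⟨k, hk, h3⟩ := inv_re (mul_mem hg h2) fun t => by
    have a : NormedSpace.exp (r - p) t = exp (r t - p t) := by
      rw [exp_eq_exp_ℂ]
      exact NormedSpace.map_exp (Pi.evalRingHom _ t |>.comp ContinuousMap.coeFnRingHom)
        (continuous_eval_const t) _
    have b := (abs_im_le_norm _).trans_lt ((ContinuousMap.norm_lt_iff _ one_pos).1 h1 t)
    rw [ContinuousMap.mul_apply, a, ← e, ← exp_add, exp_re]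
    refine mul_pos (Real.exp_pos _) (Real.cos_pos_of_le_one ?_)
    refine le_trans (le_of_eq ?_) b.le
    congr 1
    simp only [add_im, sub_im, ContinuousMap.sub_apply, ContinuousMap.add_apply,
      ContinuousMap.star_apply, star_def, conj_im]
    ring
  exact ⟨_, mul_mem h2 hk, by rw [← mul_assoc, h3]⟩

theorem exChar : ∃ ψ : H →ₐ[ℂ] ℂ, ψ ⟨_, zH⟩ = 0 := by
  have := Hc.completeSpace_coe
  have hi : ∀ f : C(T, ℂ), Integrable f AddCircle.haarAddCircle := fun f =>
    f.continuous.integrable_of_hasCompactSupport (HasCompactSupport.of_compactSpace _)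
  have key : ∀ g ∈ H, ∫ t, ((fourier 1 : C(T, ℂ)) * g) t ∂AddCircle.haarAddCircle = 0 := by
    intro g hg
    refine closure_minimal (t := {g : C(T, ℂ) |
      ∫ t, ((fourier 1 : C(T, ℂ)) * g) t ∂AddCircle.haarAddCircle = 0}) ?_ ?_ hg
    · intro g hg
      rw [Algebra.adjoin_singleton_eq_range_aeval] at hg
      obtain ⟨p, rfl⟩ := hg
      induction p using Polynomial.induction_on' with
      | add p q a b =>
        simp only [mem_ofPred_eq, map_add, mul_add, ContinuousMap.add_apply] at a b ⊢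
        rw [integral_add (hi _) (hi _), a, b, add_zero]
      | monomial n c =>
        have : (fourier 1 : C(T, ℂ)) * (Polynomial.aeval (fourier 1 : C(T, ℂ))).toRingHom
            (Polynomial.monomial n c) = c • fourier ((n + 1 : ℕ) : ℤ) := by
          rw [fpow]; ext x; simp [Polynomial.aeval_monomial, -fourier_apply]; ring
        rw [mem_ofPred_eq, this]
        simp only [ContinuousMap.smul_apply, integral_smul]
        rw [integral_eq_zero_of_add_right_eq_neg (fourier_add_half_inv_index (by omega) one_pos),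
          smul_zero]
    · refine isClosed_eq ?_ continuous_const
      exact continuous_integral.comp (f := fun g : C(T, ℂ) => ContinuousMap.toLp 1
        AddCircle.haarAddCircle ℂ ((fourier 1 : C(T, ℂ)) * g)) (by fun_prop) |>.congr fun g =>
          integral_congr_ae (ContinuousMap.coeFn_toLp _ _)
  obtain ⟨ψ, h⟩ := CharacterSpace.exists_apply_eq_zero (A := H) (a := ⟨_, zH⟩) fun h => by
    obtain ⟨g, hg⟩ := h.exists_right_inv
    have := key g g.2
    rw [show fourier 1 * (g : C(T, ℂ)) = 1 from congrArg Subtype.val hg] at this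
    simp at this
  exact ⟨CharacterSpace.toAlgHom ψ, h⟩

/-- The compact space carrying the algebra. -/
abbrev K : Type := Ultrafilter (ℕ × Finset ℕ) × I × T

/-- Restriction to a circle. -/
noncomputable def res (y : Ultrafilter (ℕ × Finset ℕ)) : C(K, ℂ) →ₐ[ℂ] C(T, ℂ) :=
  ContinuousMap.compRightAlgHom ℂ ℂ ⟨fun t => (y, 1, t), by fun_prop⟩

/-- The algebra. -/
noncomputable def A : Subalgebra ℂ C(K, ℂ) where
  carrier := {f | ∀ y : Ultrafilter (ℕ × Finset ℕ), y.toFilter ≤ Filter.cofinite →
    (∀ t, f (y, 0, t) = f (y, 0, 0)) ∧ res y f ∈ H}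
  mul_mem' := fun a b y h => ⟨fun t => by simp [(a y h).1 t, (b y h).1 t],
    map_mul (res y) _ _ ▸ mul_mem (a y h).2 (b y h).2⟩
  add_mem' := fun a b y h => ⟨fun t => by simp [(a y h).1 t, (b y h).1 t],
    map_add (res y) _ _ ▸ add_mem (a y h).2 (b y h).2⟩
  algebraMap_mem' := fun c y _ => ⟨fun _ => rfl, (res y).commutes c ▸ algebraMap_mem H c⟩

theorem Ac : IsClosed (A : Set C(K, ℂ)) := by
  change IsClosed {f : C(K, ℂ) | ∀ y : Ultrafilter (ℕ × Finset ℕ), y.toFilter ≤ Filter.cofinite →
    (∀ t, f (y, 0, t) = f (y, 0, 0)) ∧ res y f ∈ H}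
  simp only [ofPred_forall, ofPred_and]
  refine isClosed_iInter fun y => isClosed_iInter fun _ => (isClosed_iInter fun t =>
    isClosed_eq (continuous_eval_const _) (continuous_eval_const _)).inter ?_
  exact Hc.preimage (ContinuousMap.continuous_precomp _)

theorem unit (f : A) (h : ∀ k, f.1 k ≠ 0) : IsUnit f := by
  set g : C(K, ℂ) := ⟨fun k => (f.1 k)⁻¹, f.1.continuous.inv₀ h⟩ with hg
  have e : f.1 * g = 1 := by ext k; simp [hg, h k]
  refine IsUnit.of_mul_eq_one ⟨g, fun y hy => ⟨fun t => by simp [hg, (f.2 y hy).1 t], ?_⟩⟩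
    (Subtype.ext e)
  set F : C(I × T, {z : ℂ // z ≠ 0}) := ⟨fun p => ⟨f.1 (y, p), h _⟩, by fun_prop⟩ with hF
  have h0 : ∀ t, F (0, t) = ⟨exp (ContinuousMap.const T (log (f.1 (y, 0, 0))) t), exp_ne_zero _⟩ :=
    fun t => Subtype.ext (by simp [hF, exp_log (h _), (f.2 y hy).1 t])
  obtain ⟨k, hk, h1⟩ := inv_exp (f.2 y hy).2 ((isCoveringMap_exp.liftHomotopy F _ h0).comp
    ⟨fun t => (1, t), by fun_prop⟩) fun t =>
      congrArg Subtype.val (congrFun (isCoveringMap_exp.liftHomotopy_lifts F _ h0) (1, t))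
  have h2 := congrArg (res y) e
  rw [map_mul, map_one] at h2
  rwa [left_inv_eq_right_inv ((mul_comm _ _).trans h2) h1]

theorem spec (f : A) {c : ℂ} (h : c ∈ spectrum ℂ f) : ∃ k, f.1 k = c := by
  by_contra! hc
  exact spectrum.mem_iff.1 h (unit _ fun k => by simpa [sub_eq_zero] using (hc k).symm)

/-- Branches of a tree. -/
noncomputable def br (b : Set ℕ) (n : ℕ) : ℕ × Finset ℕ :=
  open Classical in (n, (Finset.range n).filter (· ∈ b))

/-- Indicators of basic clopen sets. -/
noncomputable def ind (S : Set (ℕ × Finset ℕ)) : C(K, ℂ) :=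
  ⟨fun k => indicator {u | S ∈ u} 1 k.1, (IsClopen.continuous_indicator
    ⟨ultrafilter_isClosed_basic S, ultrafilter_isOpen_basic S⟩ continuous_const).comp continuous_fst⟩

theorem result : ∃ (A : Type) (_ : NormedCommRing A) (_ : NormOneClass A) (_ : NormedAlgebra ℂ A)
    (_ : CompleteSpace A), (∃ S : Set (characterSpace ℂ A), S.Countable ∧
      ∀ x : A, spectrum ℂ x = closure ((fun φ : characterSpace ℂ A => φ x) '' S)) ∧
    ¬ SeparableSpace (characterSpace ℂ A) := by
  have := Ac.completeSpace_coe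
  refine ⟨A, inferInstance, ⟨norm_one (α := C(K, ℂ))⟩, inferInstance, this, ?_, fun hs => ?_⟩
  · have : SeparableSpace (Ultrafilter (ℕ × Finset ℕ)) := ⟨_, countable_range _, denseRange_pure⟩
    obtain ⟨D, hD, hd⟩ := exists_countable_dense K
    set ev : K → characterSpace ℂ A := fun k => (CharacterSpace.equivAlgHom (A := A)).symm
      (((Pi.evalAlgHom ℂ _ k).comp (ContinuousMap.coeFnAlgHom ℂ)).comp A.val) with hev
    refine ⟨ev '' D, hD.image _, fun x => Subset.antisymm (fun c hc => ?_)
      (closure_minimal ?_ (spectrum.isClosed x))⟩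
    · obtain ⟨k, rfl⟩ := spec x hc
      rw [image_image]
      exact image_closure_subset_closure_image x.1.continuous ⟨k, hd k, rfl⟩
    · rintro _ ⟨φ, -, rfl⟩
      exact CharacterSpace.apply_mem_spectrum φ x
  obtain ⟨ψ, hψ⟩ := exChar
  set s : C(K, ℂ) := ⟨fun k => (k.2.1 : ℝ), by fun_prop⟩ with hs
  set z : C(K, ℂ) := ⟨fun k => fourier 1 k.2.2, by fun_prop⟩ with hz
  have r1 : ∀ y, res y (s * z) = fourier 1 := fun y => by ext t; simp [res, hs, hz]
  have r2 : ∀ y S, res y (s * ind S) = algebraMap ℂ _ (indicator {u | S ∈ u} 1 y) :=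
    fun y S => by ext t; simp [res, hs, ind]
  set ζ : A := ⟨s * z, fun y _ => ⟨fun t => by simp [hs], r1 y ▸ zH⟩⟩ with hζ
  set ρ : Set ℕ → A := fun b => ⟨s * ind (range (br b)), fun y _ => ⟨fun t => by simp [hs],
    r2 y _ ▸ algebraMap_mem H _⟩⟩ with hρ
  have hc : Countable (Set ℕ) := by
    refine Pairwise.countable_of_isOpen_disjoint
      (s := fun b => {φ : characterSpace ℂ A | ‖φ ζ‖ < ‖φ (ρ b)‖}) (fun b b' hb => ?_)
      (fun b => isOpen_lt (gelfandTransform ℂ A ζ).continuous.norm
        (gelfandTransform ℂ A (ρ b)).continuous.norm) fun b => ?_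
    · have hf : (range (br b) ∩ range (br b')).Finite := by
        obtain ⟨k, hk⟩ : ∃ k, ¬(k ∈ b ↔ k ∈ b') := not_forall.1 fun h => hb (Set.ext h)
        refine ((finite_Iic k).image (br b)).subset ?_
        rintro _ ⟨⟨n, rfl⟩, m, e⟩
        refine ⟨n, mem_Iic.2 (not_lt.1 fun hn => hk ?_), rfl⟩
        simp only [br, Prod.mk.injEq] at e
        obtain ⟨rfl, e⟩ := e
        simpa [hn] using (Finset.ext_iff.1 e k).symm
      have h0 : ∀ y : Ultrafilter (ℕ × Finset ℕ), y.toFilter ≤ Filter.cofinite → ∀ p,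
          (star z * star z * (ind (range (br b)) * ind (range (br b')))) (y, p) = 0 := by
        intro y hy p
        have : ¬(range (br b) ∈ y ∧ range (br b') ∈ y) := fun h =>
          Ultrafilter.compl_mem_iff_notMem.1 (hy hf.compl_mem_cofinite) (Filter.inter_mem h.1 h.2)
        simp [ind, indicator]
        tauto
      set h : A := ⟨_, fun y hy => ⟨fun t => by rw [h0 y hy, h0 y hy], by
        rw [show res y _ = 0 from ContinuousMap.ext fun t => h0 y hy _]; exact zero_mem _⟩⟩ with hh
      have e : ρ b * ρ b' = ζ * ζ * h := by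
        refine Subtype.ext (ContinuousMap.ext fun k => ?_)
        have : z k * star (z k) = 1 := by simp [hz, mul_conj]
        simp only [hρ, hζ, hh, MulMemClass.coe_mul, ContinuousMap.mul_apply, ContinuousMap.star_apply]
        linear_combination (-(s k * s k * ind (range (br b)) k * ind (range (br b')) k *
          (z k * star (z k) + 1))) * this
      refine disjoint_left.2 fun φ a c => ?_
      simp only [mem_ofPred_eq] at a c
      obtain ⟨k, hk⟩ := spec h (CharacterSpace.apply_mem_spectrum φ h)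
      have h1 : ‖φ h‖ ≤ 1 := by
        rw [← hk]
        simp [hh, hz, ind, indicator]
        split_ifs <;> simp
      have h2 := congrArg (fun x => ‖φ x‖) e
      simp only [map_mul, norm_mul] at h2
      nlinarith [norm_nonneg (φ ζ), mul_lt_mul'' a c (norm_nonneg _) (norm_nonneg _)]
    · set y := (Filter.hyperfilter ℕ).map (br b) with hy
      have h1 : y.toFilter ≤ Filter.cofinite :=
        (Function.Injective.tendsto_cofinite fun n m e => congrArg Prod.fst e).mono_left
          Filter.hyperfilter_le_cofinite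
      set χ : A →ₐ[ℂ] H := ((res y).comp A.val).codRestrict H fun f => (f.2 y h1).2 with hχ
      refine ⟨(CharacterSpace.equivAlgHom (A := A)).symm (ψ.comp χ), ?_⟩
      change ‖ψ (χ ζ)‖ < ‖ψ (χ (ρ b))‖
      rw [show χ ζ = ⟨_, zH⟩ from Subtype.ext (r1 y), hψ, show χ (ρ b) = 1 from Subtype.ext
        ((r2 y _).trans (by rw [indicator_of_mem (show y ∈ {u : Ultrafilter _ | range (br b) ∈ u}
          from Filter.range_mem_map)]; simp))]
      simp
  obtain ⟨f, hf⟩ := exists_surjective_nat (Set ℕ)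
  exact Function.cantor_surjective f hf

end Pool.Agent.Results.MP_3ada3c_an.NotSeparable
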